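import Pool.Agent.Lib_MP_e09b77_an.Final2

/-!
# MP_e09b77_an: the coloured entropy of the canonical map of a Cuntz–Krieger algebra

`ht_nuc(θ_A) = log r(A)`.
-/

open scoped CStarAlgebra ComplexOrder

namespace Pool.Agent.Results.MP_e09b77_an.EntropyTheta

universe u

open CKE

/-- Let `A` be a 0-1 matrix without zero rows (for instance an irreducible one) and let `B` with
the partial isometries `S i` be the Cuntz–Krieger algebra `𝒪_A`. For every `d`, the coloured
entropy (with `d + 1` colours) of `θ_A(x) = ∑ S_i x S_i*` is `log r(A)` if and only if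
`dim_nuc 𝒪_A ≤ d`. In particular it is `log r(A)` for `d = dim_nuc 𝒪_A`. -/
theorem result {N : ℕ} (hN : 0 < N) (A : Matrix (Fin N) (Fin N) ℕ)
    (hA : ∀ i j, A i j = 0 ∨ A i j = 1) (hrow : ∀ i, ∃ j, A i j = 1) {B : Type u}
    [CStarAlgebra B] [PartialOrder B] [StarOrderedRing B] (S : Fin N → B)
    (hS : IsCuntzKrieger A S) (d : ℕ) :
    htNuc d (theta S) = ENNReal.log (spectralRadius ℂ (A.map (Nat.cast : ℕ → ℂ))) ↔
      NucDimLE B d :=
  htNuc_theta_iff hN A hA hrow S hS.family (fun i => hS.ne_zero hA hrow i) hS.generates d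

end Pool.Agent.Results.MP_e09b77_an.EntropyTheta
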